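import Pool.Agent.Q213.PM.Stm

set_option autoImplicit false

/-!
Project PM (helper213), job PMS: the partial model structure on a small full subcategory which is
closed under the relevant pushouts, pullbacks and middle objects of factorizations.
-/

universe v u w

open CategoryTheory Limits

namespace Pool.Agent.Q182.PM

open Pool.Agent.Q213.PM

variable {K : Type (u + 1)} [Category.{u} K] {Q : ObjectProperty K}

theorem cq_post [Q.IsClosedUnderIsomorphisms] {A B B' : K} {f : A ⟶ B} (h : CQ Q f) (e : B ≅ B') :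
    CQ Q (f ≫ e.hom) := by
  obtain ⟨hA, hB, h3⟩ := h
  refine ⟨hA, Q.prop_of_iso e hB, ?_⟩
  intro A' P g g' f' hA' hp
  refine h3 hA' (g := g) (g' := e.hom ≫ g') (f' := f') ?_
  exact hp.of_iso (Iso.refl _) e.symm (Iso.refl _) (Iso.refl _) (by simp) (by simp) (by simp)
    (by simp)

theorem fq_pre [Q.IsClosedUnderIsomorphisms] {E E' B : K} {f : E ⟶ B} (h : FQ Q f) (e : E' ≅ E) :
    FQ Q (e.hom ≫ f) := by
  obtain ⟨hE, hB, h3⟩ := h
  refine ⟨Q.prop_of_iso e.symm hE, hB, ?_⟩
  intro B' P g g' f' hB' hp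
  refine h3 hB' (g := g) (g' := g' ≫ e.hom) (f' := f') ?_
  exact hp.of_iso (Iso.refl _) e (Iso.refl _) (Iso.refl _) (by simp) (by simp) (by simp)
    (by simp)

variable {M : Type u} [SmallCategory M]

section
variable {Z : Arrow K ⥤ K} {U : M ⥤ K} [U.Full] [U.Faithful]

theorem po [HasPushouts K] (hC : Clo Q Z U) {a b c : M} (f : a ⟶ b) (g : a ⟶ c) (hf : CQ Q (U.map f)) :
    ∃ (m : M) (x : b ⟶ m) (y : c ⟶ m), IsPushout (U.map f) (U.map g) (U.map x) (U.map y) ∧
      IsPushout f g x y := by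
  obtain ⟨m, ⟨e⟩⟩ := hC.1 (U.map f) (U.map g) (pushout.inl (U.map f) (U.map g))
    (pushout.inr (U.map f) (U.map g)) hf (IsPushout.of_hasPushout _ _)
  refine ⟨m, U.preimage (pushout.inl (U.map f) (U.map g) ≫ e.inv),
    U.preimage (pushout.inr (U.map f) (U.map g) ≫ e.inv), ?_⟩
  have h1 : IsPushout (U.map f) (U.map g)
      (U.map (U.preimage (pushout.inl (U.map f) (U.map g) ≫ e.inv)))
      (U.map (U.preimage (pushout.inr (U.map f) (U.map g) ≫ e.inv))) := by
    rw [U.map_preimage, U.map_preimage]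
    exact (IsPushout.of_hasPushout (U.map f) (U.map g)).of_iso (Iso.refl _) (Iso.refl _)
      (Iso.refl _) e.symm (by simp) (by simp) (by simp) (by simp)
  exact ⟨h1, h1.of_map_of_faithful U⟩

theorem pb [HasPullbacks K] (hC : Clo Q Z U) {a b c : M} (f : b ⟶ a) (g : c ⟶ a) (hf : FQ Q (U.map f)) :
    ∃ (m : M) (x : m ⟶ b) (y : m ⟶ c), IsPullback (U.map x) (U.map y) (U.map f) (U.map g) ∧
      IsPullback x y f g := by
  obtain ⟨m, ⟨e⟩⟩ := hC.2.1 (U.map f) (U.map g) (pullback.fst (U.map f) (U.map g))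
    (pullback.snd (U.map f) (U.map g)) hf (IsPullback.of_hasPullback _ _)
  refine ⟨m, U.preimage (e.hom ≫ pullback.fst (U.map f) (U.map g)),
    U.preimage (e.hom ≫ pullback.snd (U.map f) (U.map g)), ?_⟩
  have h1 : IsPullback
      (U.map (U.preimage (e.hom ≫ pullback.fst (U.map f) (U.map g))))
      (U.map (U.preimage (e.hom ≫ pullback.snd (U.map f) (U.map g)))) (U.map f) (U.map g) := by
    rw [U.map_preimage, U.map_preimage]
    exact (IsPullback.of_hasPullback (U.map f) (U.map g)).of_iso e.symm (Iso.refl _) (Iso.refl _)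
      (Iso.refl _) (by simp) (by simp) (by simp) (by simp)
  exact ⟨h1, h1.of_map_of_faithful U⟩

theorem po_map [HasPushouts K] (hC : Clo Q Z U) {a b c m : M} {f : a ⟶ b} {g : a ⟶ c} {x : b ⟶ m} {y : c ⟶ m}
    (hf : CQ Q (U.map f)) (hp : IsPushout f g x y) :
    IsPushout (U.map f) (U.map g) (U.map x) (U.map y) := by
  obtain ⟨m', x', y', h1, h2⟩ := po hC f g hf
  refine h1.of_iso (Iso.refl _) (Iso.refl _) (Iso.refl _) (U.mapIso (h2.isoIsPushout _ _ hp))
    (by simp) (by simp) ?_ ?_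
  · simp [← U.map_comp]
  · simp [← U.map_comp]

theorem pb_map [HasPullbacks K] (hC : Clo Q Z U) {a b c m : M} {f : b ⟶ a} {g : c ⟶ a} {x : m ⟶ b} {y : m ⟶ c}
    (hf : FQ Q (U.map f)) (hp : IsPullback x y f g) :
    IsPullback (U.map x) (U.map y) (U.map f) (U.map g) := by
  obtain ⟨m', x', y', h1, h2⟩ := pb hC f g hf
  refine h1.of_iso (U.mapIso (h2.isoIsPullback _ _ hp)) (Iso.refl _) (Iso.refl _) (Iso.refl _)
    ?_ ?_ (by simp) (by simp)
  · simp [← U.map_comp]
  · simp [← U.map_comp]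

theorem cq_po [HasPushouts K] (hQ : ∀ m, Q (U.obj m)) (hC : Clo Q Z U) {a b c m : M} {f : a ⟶ b} {g : a ⟶ c}
    {x : b ⟶ m} {y : c ⟶ m} (hp : IsPushout f g x y) (hf : CQ Q (U.map f)) : CQ Q (U.map y) := by
  have h1 := po_map hC hf hp
  refine ⟨hQ _, hQ _, ?_⟩
  intro A' P u v w hA' hp'
  exact hf.2.2 hA' (h1.paste_vert hp')

theorem fq_pb [HasPullbacks K] (hQ : ∀ m, Q (U.obj m)) (hC : Clo Q Z U) {a b c m : M} {f : b ⟶ a} {g : c ⟶ a}
    {x : m ⟶ b} {y : m ⟶ c} (hp : IsPullback x y f g) (hf : FQ Q (U.map f)) :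
    FQ Q (U.map y) := by
  have h1 := pb_map hC hf hp
  refine ⟨hQ _, hQ _, ?_⟩
  intro B' P u v w hB' hp'
  exact hf.2.2 hB' (hp'.paste_horiz h1)

theorem nat_i {a a' za za' : M} (l : a ⟶ a') {Y Y' : K} (e : U.obj za ≅ Y) (e' : U.obj za' ≅ Y')
    (j : U.obj a ⟶ Y) (j' : U.obj a' ⟶ Y') (ζ : Y ⟶ Y') (h : U.map l ≫ j' = j ≫ ζ) :
    l ≫ U.preimage (j' ≫ e'.inv) = U.preimage (j ≫ e.inv) ≫ U.preimage (e.hom ≫ ζ ≫ e'.inv) := by
  apply U.map_injective
  simp only [U.map_comp, U.map_preimage, Category.assoc, Iso.inv_hom_id_assoc]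
  rw [← Category.assoc, h, Category.assoc]

theorem nat_p {a a' za za' : M} (l : a ⟶ a') {Y Y' : K} (e : U.obj za ≅ Y) (e' : U.obj za' ≅ Y')
    (q : Y ⟶ U.obj a) (q' : Y' ⟶ U.obj a') (ζ : Y ⟶ Y') (h : ζ ≫ q' = q ≫ U.map l) :
    U.preimage (e.hom ≫ ζ ≫ e'.inv) ≫ U.preimage (e'.hom ≫ q') = U.preimage (e.hom ≫ q) ≫ l := by
  apply U.map_injective
  simp only [U.map_comp, U.map_preimage, Category.assoc, Iso.inv_hom_id_assoc]
  rw [h]

theorem fac_ip {a b z : M} (l : a ⟶ b) {Y : K} (e : U.obj z ≅ Y)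
    (j : U.obj a ⟶ Y) (q : Y ⟶ U.obj b) (h : j ≫ q = U.map l) :
    U.preimage (j ≫ e.inv) ≫ U.preimage (e.hom ≫ q) = l := by
  apply U.map_injective
  simp only [U.map_comp, U.map_preimage, Category.assoc, Iso.inv_hom_id_assoc]
  rw [h]

theorem cq_i [Q.IsClosedUnderIsomorphisms] {a z : M} {Y : K} {j : U.obj a ⟶ Y} (h : CQ Q j)
    (e : U.obj z ≅ Y) : CQ Q (U.map (U.preimage (j ≫ e.inv))) := by
  rw [U.map_preimage]
  exact cq_post h e.symm

theorem fq_p [Q.IsClosedUnderIsomorphisms] {b z : M} {Y : K} {q : Y ⟶ U.obj b} (h : FQ Q q)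
    (e : U.obj z ≅ Y) : FQ Q (U.map (U.preimage (e.hom ≫ q))) := by
  rw [U.map_preimage]
  exact fq_pre h e

end

/-- Job PMS. -/
theorem t_PMS : S_PMS.{u} := by
  intro K _ _ _ Q _ Z i p hfac hip M _ U _ _ hQ hC
  have hmul : (⊤ : MorphismProperty M).IsMultiplicative := inferInstance
  let D : Arrow (WideSubcategory (⊤ : MorphismProperty M)) ⥤ Arrow K :=
    (wideSubcategoryInclusion (⊤ : MorphismProperty M)).mapArrow ⋙ U.mapArrow
  have hz : ∀ g : Arrow (WideSubcategory (⊤ : MorphismProperty M)),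
      ∃ m : M, Nonempty (U.obj m ≅ Z.obj (D.obj g)) := fun g => hC.2.2 (U.map g.hom.hom)
  choose z hz using hz
  let e : ∀ g, U.obj (z g) ≅ Z.obj (D.obj g) := fun g => (hz g).some
  let Zm : Arrow (WideSubcategory (⊤ : MorphismProperty M)) ⥤ M :=
    { obj := z
      map := fun {g g'} φ => U.preimage ((e g).hom ≫ Z.map (D.map φ) ≫ (e g').inv)
      map_id := fun g => U.map_injective (by simp)
      map_comp := fun {g g' g''} φ ψ => U.map_injective (by simp) }
  refine ⟨{ W := ⊤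
            C := (CQ Q).inverseImage U
            F := (FQ Q).inverseImage U
            mult := hmul
            C_le := le_top
            F_le := le_top
            two_of_six := fun _ _ _ _ _ => ⟨trivial, trivial, trivial, trivial⟩
            hasPushout := ?_
            pushout_mem := ?_
            hasPullback := ?_
            pullback_mem := ?_
            Z := Zm
            i := { app := fun g => U.preimage (i.app (D.obj g) ≫ (e g).inv)
                   naturality := ?_ }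
            p := { app := fun g => U.preimage ((e g).hom ≫ p.app (D.obj g))
                   naturality := ?_ }
            fac := ?_
            i_mem := ?_
            p_mem := ?_ }, rfl⟩
  · intro A B A' f g hf
    obtain ⟨m, x, y, _, h2⟩ := po hC f g hf
    exact h2.hasPushout
  · intro A B A' P f g g' f' hp hf
    exact cq_po hQ hC hp hf
  · intro A B A' f g hf
    obtain ⟨m, x, y, _, h2⟩ := pb hC f g hf
    exact h2.hasPullback
  · intro A B A' P f g g' f' hp hf
    exact fq_pb hQ hC hp hf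
  · intro g g' φ
    exact nat_i (U := U) φ.left.hom (e g) (e g') (i.app (D.obj g)) (i.app (D.obj g'))
      (Z.map (D.map φ)) (i.naturality (D.map φ))
  · intro g g' φ
    exact nat_p (U := U) φ.right.hom (e g) (e g') (p.app (D.obj g)) (p.app (D.obj g'))
      (Z.map (D.map φ)) (p.naturality (D.map φ))
  · intro g
    exact fac_ip (U := U) g.hom.hom (e g) (i.app (D.obj g)) (p.app (D.obj g)) (hfac (D.obj g))
  · intro g
    exact cq_i (hip (D.obj g) (hQ _) (hQ _)).1 (e g)
  · intro g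
    exact fq_p (hip (D.obj g) (hQ _) (hQ _)).2 (e g)

end Pool.Agent.Q182.PM
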